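import Pool.Agent.H62P.Comps

/-! Absorption of a set of optional vertices of large degree; components with pendants. -/

set_option autoImplicit false

namespace Pool.Agent.H78P

open List Pool.Agent.TF82 Pool.Agent.TFC Pool.Agent.TFB Pool.Agent.H62P

universe u

set_option linter.unusedSectionVars false
set_option linter.unusedVariables false

variable {V : Type u} [DecidableEq V]

/-- one uncovered vertex with few uncovered neighbours outside `W` is absorbed -/
theorem absorb_one_c {G : SimpleGraph V} [DecidableRel G.Adj] {U W : Finset V} (hW : W ⊆ U) {z : V}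
    (hz : z ∈ U \ W) {c : ℕ}
    (hC : ∀ I : Finset V, I ⊆ U \ W → G.IsIndepSet (I : Set V) → z ∈ I →
      I.card + 1 + W.card + c ≤ dU G U z)
    {L : List (List V)} (hL : Fam G L) (hLU : ∀ x ∈ L.flatten, x ∈ U) (hzL : z ∉ L.flatten)
    (hc : ((U \ W).filter (fun w => w ∉ L.flatten ∧ G.Adj z w)).card ≤ c) :
    ∃ L2, Fam G L2 ∧ L2.length ≤ L.length ∧ ∀ x, x ∈ L2.flatten ↔ x ∈ L.flatten ∨ x = z := by
  classical
  by_contra hgood
  set N : Finset V := L.flatten.toFinset.filter (fun w => G.Adj z w) with hN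
  have hNm : ∀ w, w ∈ N ↔ w ∈ L.flatten ∧ G.Adj z w := by
    intro w; rw [hN, Finset.mem_filter, List.mem_toFinset]
  set P : Finset V := (N.image (prv L)) \ W with hP
  have hPm : ∀ p ∈ P, ∃ w ∈ L.flatten, G.Adj z w ∧ prv L w = p := by
    intro p hp
    obtain ⟨w, hw, rfl⟩ := Finset.mem_image.1 (Finset.mem_sdiff.1 hp).1
    exact ⟨w, ((hNm w).1 hw).1, ((hNm w).1 hw).2, rfl⟩
  have hzP : z ∉ P := by
    intro h
    obtain ⟨w, hw, _, h2⟩ := hPm z h
    exact hzL (h2 ▸ prv_mem hL hw)
  have hsub : insert z P ⊆ U \ W := by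
    intro x hx
    rcases Finset.mem_insert.1 hx with rfl | hx
    · exact hz
    · obtain ⟨w, hw, _, h2⟩ := hPm x hx
      exact Finset.mem_sdiff.2 ⟨hLU _ (h2 ▸ prv_mem hL hw), (Finset.mem_sdiff.1 hx).2⟩
  have hzp : ∀ p ∈ P, ¬ G.Adj z p := by
    intro p hp hadj
    obtain ⟨w, hw, h1, rfl⟩ := hPm p hp
    exact hgood (ins_fam hL hzL hw h1 hadj)
  have hind : G.IsIndepSet ((insert z P : Finset V) : Set V) := by
    intro a ha b hb hab
    rw [Finset.mem_coe, Finset.mem_insert] at ha hb
    rcases ha with rfl | ha <;> rcases hb with rfl | hb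
    · exact absurd rfl hab
    · exact hzp b hb
    · intro h; exact hzp a ha h.symm
    · obtain ⟨w, hw, h1, rfl⟩ := hPm a ha
      obtain ⟨w', hw', h1', rfl⟩ := hPm b hb
      intro hadj
      refine hgood (cross_fam hL hzL hw hw' ?_ h1 h1' hadj)
      rintro rfl
      exact hab rfl
  have key := hC _ hsub hind (Finset.mem_insert_self _ _)
  rw [Finset.card_insert_of_notMem hzP] at key
  have hcI : (N.image (prv L)).card = N.card := by
    refine Finset.card_image_of_injOn ?_
    intro a ha b hb hab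
    exact prv_inj hL ((hNm a).1 (Finset.mem_coe.1 ha)).1 ((hNm b).1 (Finset.mem_coe.1 hb)).1 hab
  have hImL : ∀ p ∈ N.image (prv L), p ∈ L.flatten := by
    intro p hp
    obtain ⟨w, hw, rfl⟩ := Finset.mem_image.1 hp
    exact prv_mem hL ((hNm w).1 hw).1
  have h1 : N.card ≤ P.card + (W.filter (fun x => x ∈ L.flatten)).card := by
    rw [← hcI]
    have : N.image (prv L) ⊆ P ∪ (W.filter (fun x => x ∈ L.flatten)) := by
      intro p hp
      by_cases hpW : p ∈ W
      · exact Finset.mem_union_right _ (Finset.mem_filter.2 ⟨hpW, hImL p hp⟩)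
      · exact Finset.mem_union_left _ (Finset.mem_sdiff.2 ⟨hp, hpW⟩)
    exact (Finset.card_le_card this).trans (Finset.card_union_le _ _)
  have h2 : dU G U z ≤ N.card + ((W.filter (fun x => x ∉ L.flatten)).card + c) := by
    unfold dU
    have : U.filter (fun w => G.Adj z w) ⊆ N ∪ ((W.filter (fun x => x ∉ L.flatten)) ∪
        (U \ W).filter (fun w => w ∉ L.flatten ∧ G.Adj z w)) := by
      intro w hw
      rw [Finset.mem_filter] at hw
      rw [Finset.mem_union, Finset.mem_union]
      by_cases hwL : w ∈ L.flatten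
      · exact Or.inl ((hNm w).2 ⟨hwL, hw.2⟩)
      · by_cases hwW : w ∈ W
        · exact Or.inr (Or.inl (Finset.mem_filter.2 ⟨hwW, hwL⟩))
        · exact Or.inr (Or.inr (Finset.mem_filter.2 ⟨Finset.mem_sdiff.2 ⟨hw.1, hwW⟩, hwL, hw.2⟩))
    refine (Finset.card_le_card this).trans ((Finset.card_union_le _ _).trans ?_)
    refine Nat.add_le_add_left ((Finset.card_union_le _ _).trans (Nat.add_le_add_left hc _)) _
  have h3 := Finset.card_filter_add_card_filter_not (s := W) (fun x => x ∈ L.flatten)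
  omega

/-- a set `X` of optional vertices with surplus `|X - x|` at `x` is absorbed -/
theorem absorb_set {G : SimpleGraph V} [DecidableRel G.Adj] {U W X : Finset V} (hW : W ⊆ U)
    (hX : X ⊆ U \ W)
    (hC : ∀ x ∈ X, ∀ I : Finset V, I ⊆ U \ W → G.IsIndepSet (I : Set V) → x ∈ I →
      I.card + 1 + W.card + (X.erase x).card ≤ dU G U x)
    {k : ℕ} (h : CovW G U (W ∪ X) k) : CovW G U W k := by
  classical
  obtain ⟨L, l1, l2, l3, l4⟩ := h
  have key : ∀ n : ℕ, ∀ L : List (List V), L.length ≤ k → Fam G L → (∀ x ∈ L.flatten, x ∈ U) →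
      (∀ x ∈ U \ (W ∪ X), x ∈ L.flatten) → (X.filter (fun x => x ∉ L.flatten)).card = n →
      CovW G U W k := by
    intro n
    induction n with
    | zero =>
      intro L m1 m2 m3 m4 m5
      refine ⟨L, m1, m2, m3, ?_⟩
      intro x hx
      by_cases hxX : x ∈ X
      · by_contra hxL
        have : x ∈ X.filter (fun x => x ∉ L.flatten) := Finset.mem_filter.2 ⟨hxX, hxL⟩
        rw [Finset.card_eq_zero.1 m5] at this
        simp at this
      · refine m4 x (Finset.mem_sdiff.2 ⟨(Finset.mem_sdiff.1 hx).1, fun hh => ?_⟩)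
        rcases Finset.mem_union.1 hh with h1 | h1
        · exact (Finset.mem_sdiff.1 hx).2 h1
        · exact hxX h1
    | succ n ih =>
      intro L m1 m2 m3 m4 m5
      obtain ⟨x, hx⟩ : (X.filter (fun x => x ∉ L.flatten)).Nonempty :=
        Finset.card_pos.1 (by omega)
      obtain ⟨hxX, hxL⟩ := Finset.mem_filter.1 hx
      obtain ⟨L2, q1, q2, q3⟩ := absorb_one_c hW (hX hxX) (hC x hxX) m2 m3 hxL (by
        refine Finset.card_le_card ?_
        intro w hw
        rw [Finset.mem_filter, Finset.mem_sdiff] at hw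
        refine Finset.mem_erase.2 ⟨fun he => G.loopless.irrefl x (he ▸ hw.2.2), ?_⟩
        by_contra hwX
        refine hw.2.1 (m4 w (Finset.mem_sdiff.2 ⟨hw.1.1, fun hh => ?_⟩))
        rcases Finset.mem_union.1 hh with h1 | h1
        · exact hw.1.2 h1
        · exact hwX h1)
      refine ih L2 (q2.trans m1) q1 ?_ ?_ ?_
      · intro y hy
        rcases (q3 y).1 hy with h1 | h1
        · exact m3 y h1
        · rw [h1]
          exact (Finset.mem_sdiff.1 (hX hxX)).1
      · intro y hy
        exact (q3 y).2 (Or.inl (m4 y hy))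
      · have h1 : X.filter (fun y => y ∉ L2.flatten) = (X.filter (fun y => y ∉ L.flatten)).erase x := by
          ext y
          rw [Finset.mem_filter, Finset.mem_erase, Finset.mem_filter, q3]
          tauto
        rw [h1, Finset.card_erase_of_mem hx]
        omega
  exact key _ L l1 l2 l3 l4 rfl

/-- (M1) pendants of a component may be made optional at no cost -/
theorem comp_cov_X [Fintype V] {G : SimpleGraph V} [DecidableRel G.Adj] {W : Finset V}
    (hC : CW G Finset.univ W) {j : ℕ} {L : List (List V)} (hM : IsMax G j L) {y : V}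
    (hy : y ∈ unc L) {X : Finset V} (hX : X ⊆ comp G L y) (hXW : Disjoint X W)
    (hp : ∀ x ∈ X, ∃ u ∈ L.flatten, ∀ w ∈ comp G L y, G.Adj u w ↔ w = x)
    {k : ℕ} (h : CovW G (comp G L y) ((W ∩ comp G L y) ∪ X) k) :
    CovW G (comp G L y) (W ∩ comp G L y) k := by
  classical
  refine absorb_set Finset.inter_subset_right ?_ ?_ h
  · intro x hx
    exact Finset.mem_sdiff.2 ⟨hX hx, fun hh =>
      Finset.disjoint_left.1 hXW hx (Finset.mem_inter.1 hh).1⟩
  · intro x hxX I hI hind hxI
    have hIc : ∀ a ∈ I, a ∈ comp G L y ∧ a ∉ W := by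
      intro a ha
      have h1 := Finset.mem_sdiff.1 (hI ha)
      exact ⟨h1.1, fun hw => h1.2 (Finset.mem_inter.2 ⟨hw, h1.1⟩)⟩
    have h1 := att_main_W hC hM hy I
      (Finset.disjoint_left.2 (fun a ha => (hIc a ha).2)) hind
      (fun a ha => (mem_comp.1 (hIc a ha).1).2) hxI
    rw [← dU_comp (hIc x hxI).1] at h1
    have h2 : (W ∩ comp G L y).card ≤ (W ∩ unc L).card := by
      refine Finset.card_le_card (fun a ha => ?_)
      have := Finset.mem_inter.1 ha
      exact Finset.mem_inter.2 ⟨this.1, (mem_comp.1 this.2).1⟩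
    have h3 : (X.erase x).card ≤ ((att G L y).filter (fun w => ¬ G.Adj x w)).card := by
      have hex : ∀ a, ∃ u, a ∈ X → u ∈ L.flatten ∧ ∀ w ∈ comp G L y, G.Adj u w ↔ w = a := by
        intro a
        by_cases ha : a ∈ X
        · obtain ⟨u, hu1, hu2⟩ := hp a ha
          exact ⟨u, fun _ => ⟨hu1, hu2⟩⟩
        · exact ⟨a, fun h => absurd h ha⟩
      choose t ht using hex
      refine Finset.card_le_card_of_injOn t ?_ ?_
      · intro a ha
        rw [Finset.mem_coe, Finset.mem_erase] at ha
        obtain ⟨ta, tb⟩ := ht a ha.2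
        have haZ := mem_comp.1 (hX ha.2)
        rw [Finset.mem_coe, Finset.mem_filter]
        refine ⟨mem_att.2 ⟨ta, a, haZ.2, (tb a (hX ha.2)).2 rfl⟩, fun hadj => ha.1 ?_⟩
        exact ((tb x (hX hxX)).1 hadj.symm).symm
      · intro a ha b hb hab
        rw [Finset.mem_coe, Finset.mem_erase] at ha hb
        obtain ⟨ta, tb⟩ := ht a ha.2
        obtain ⟨tc, td⟩ := ht b hb.2
        exact (td a (hX ha.2)).1 (hab ▸ (tb a (hX ha.2)).2 rfl)
    omega

end Pool.Agent.H78P
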